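import Pool.Agent.TH926.PX.Fin

/-! Excursions of primes: asymptotics. -/

set_option autoImplicit false

namespace Pool.Agent.TH926.PX

open Finset Filter Topology Pool.Agent.Helper894.Collatz Pool.Agent.H828R3.Exc Pool.Agent.W36.SL
  Pool.Agent.H319R2.Lln
open scoped Classical

/-- number of the primes `p ≤ x` with an excursion above `lam * p` before a value `≤ y` -/
noncomputable def N (x : ℕ) (lam y : ℝ) : ℝ :=
  (((Icc 1 x).filter (fun p => p.Prime ∧ Exc lam y p)).card : ℝ)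

/-- number of the primes up to `x` -/
noncomputable def P (x : ℕ) : ℝ := (Nat.primeCounting x : ℝ)

theorem pi1_eq (x : ℕ) : H343E.pi1 x = P x := by
  unfold H343E.pi1 P Nat.primeCounting Nat.primeCounting'
  rw [Nat.count_eq_card_filter_range]
  congr 2
  ext p
  simp only [mem_filter, mem_Icc, mem_range]
  constructor
  · rintro ⟨⟨_, h1⟩, h2⟩; exact ⟨by omega, h2⟩
  · rintro ⟨h1, h2⟩; exact ⟨⟨h2.one_lt.le, by omega⟩, h2⟩

theorem exJ {X : ℝ} (hX : 4 ≤ X) : ∃ J : ℕ, 1 ≤ J ∧ (2 : ℝ) ^ J ≤ X ^ (1 / 2 : ℝ) ∧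
    X < ((2 : ℝ) ^ (J + 1)) ^ 2 ∧ (J : ℝ) ≤ Real.log X := by
  have hX0 : 0 < X := by linarith
  have hz : (2 : ℝ) ≤ X ^ (1 / 2 : ℝ) := by
    have h1 : (4 : ℝ) ^ (1 / 2 : ℝ) ≤ X ^ (1 / 2 : ℝ) := Real.rpow_le_rpow (by norm_num) hX (by norm_num)
    have h2 : (4 : ℝ) ^ (1 / 2 : ℝ) = 2 := by
      rw [show (4 : ℝ) = 2 ^ (2 : ℝ) by norm_num, ← Real.rpow_mul (by norm_num)]; norm_num
    linarith
  obtain ⟨J, h1, h2⟩ := near (show (1 : ℝ) ≤ X ^ (1 / 2 : ℝ) by linarith)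
  refine ⟨J, ?_, h1, ?_, ?_⟩
  · by_contra h
    have : J = 0 := by omega
    subst this
    norm_num at h2
    linarith
  · have h3 : X = (X ^ (1 / 2 : ℝ)) ^ 2 := by
      rw [← Real.rpow_natCast, ← Real.rpow_mul hX0.le]; norm_num
    calc X = (X ^ (1 / 2 : ℝ)) ^ 2 := h3
      _ < _ := pow_lt_pow_left₀ h2 (by linarith) (by norm_num)
  · have h3 := log_bound (by linarith) h1
    rw [Real.log_rpow hX0] at h3
    have h4 : 0 ≤ Real.log X := Real.log_nonneg (by linarith)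
    linarith

theorem rJ {J : ℕ} {L y : ℝ} (hL : 1 ≤ L) (hJ : (J : ℝ) ≤ L) (hy : L ^ 2 ≤ y) :
    (1 + 1 / (3 * y)) ^ J ≤ 1 + 1 / L := by
  have hL0 : 0 < L := by linarith
  have hy0 : 0 < y := lt_of_lt_of_le (by positivity) hy
  set t : ℝ := 1 / (3 * y) with ht
  have ht0 : 0 < t := by positivity
  have h1 : (1 + t) ^ J ≤ Real.exp (J * t) := by
    rw [Real.exp_nat_mul]
    apply pow_le_pow_left₀ (by linarith)
    linarith [Real.add_one_le_exp t]
  have h2 : (J : ℝ) * t ≤ 1 / (3 * L) := by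
    rw [ht, mul_one_div, div_le_div_iff₀ (by positivity) (by positivity), one_mul]
    have h3 : (J : ℝ) * (3 * L) ≤ L * (3 * L) := mul_le_mul_of_nonneg_right hJ (by positivity)
    nlinarith
  set w : ℝ := 1 / (3 * L) with hw
  have hw0 : 0 < w := by positivity
  have hw1 : w ≤ 1 / 3 := by
    rw [hw, div_le_div_iff₀ (by positivity) (by norm_num)]; linarith
  have h3 : Real.exp w ≤ 1 + 3 / 2 * w := by
    have h4 : 1 - w ≤ Real.exp (-w) := by linarith [Real.add_one_le_exp (-w)]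
    have h5 : Real.exp w * Real.exp (-w) = 1 := by rw [← Real.exp_add]; simp
    have h6 := Real.exp_pos w
    have h7 : Real.exp w * (1 - w) ≤ 1 := by
      calc Real.exp w * (1 - w) ≤ Real.exp w * Real.exp (-w) := mul_le_mul_of_nonneg_left h4 h6.le
        _ = 1 := h5
    nlinarith
  have h4 : 3 / 2 * w = 1 / (2 * L) := by rw [hw]; field_simp
  have h5 : 1 / (2 * L) ≤ 1 / L := by
    apply div_le_div_of_nonneg_left (by norm_num) hL0; linarith
  calc (1 + t) ^ J ≤ Real.exp (J * t) := h1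
    _ ≤ Real.exp w := Real.exp_le_exp.2 h2
    _ ≤ _ := by linarith

theorem log_ge (M : ℝ) : ∃ x0 : ℕ, ∀ x : ℕ, x0 ≤ x → M ≤ Real.log x :=
  eventually_atTop.1 ((Real.tendsto_log_atTop.comp tendsto_natCast_atTop_atTop).eventually_ge_atTop M)

/-- logarithms against powers -/
theorem pow_small (n : ℕ) {t : ℝ} (ht : 0 < t) (M : ℝ) {e : ℝ} (he : 0 < e) :
    ∃ x0 : ℕ, ∀ x : ℕ, x0 ≤ x → M * (Real.log x ^ n * (x : ℝ) ^ (-t)) ≤ e :=
  eventually_atTop.1 (tendsto_natCast_atTop_atTop.eventually (ev_small n ht M he))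

theorem unit_small (A : ℕ) {δ : ℝ} (hδ : 0 < δ) : ∃ x0 : ℕ, ∀ x : ℕ, x0 ≤ x → ∀ lam : ℝ, 0 < lam →
    lam ≤ Real.log x ^ A → x / Real.log x ^ (A + 2) ≤ δ * (P x / lam) := by
  obtain ⟨c1, hc1, hch⟩ := Pool.Agent.W38.PR.cheb
  obtain ⟨x1, hx1⟩ := log_ge (max 1 (1 / (c1 * δ)))
  refine ⟨max x1 2, fun x hx lam hl0 hl => ?_⟩
  have h1 := hx1 x (le_trans (le_max_left _ _) hx)
  have h2 : (2 : ℝ) ≤ x := by exact_mod_cast le_trans (le_max_right _ _) hx
  have h3 := hch x h2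
  rw [Nat.floor_natCast] at h3
  set L := Real.log x with hL
  have hL1 : 1 ≤ L := le_trans (le_max_left _ _) h1
  have hL0 : 0 < L := by linarith
  have h4 : 1 / (c1 * δ) ≤ L := le_trans (le_max_right _ _) h1
  rw [div_le_iff₀ (by positivity)] at h4
  have hx0 : (0 : ℝ) < x := by linarith
  have h5 : c1 * (x / L) / L ^ A ≤ P x / lam := by
    unfold P
    apply div_le_div₀ (by positivity) h3 hl0 hl
  have h6 : x / L ^ (A + 2) ≤ δ * (c1 * (x / L) / L ^ A) := by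
    have e : δ * (c1 * (x / L) / L ^ A) = (x / L ^ (A + 2)) * (L * (c1 * δ)) := by
      rw [pow_add]; field_simp
    rw [e]
    exact le_mul_of_one_le_right (by positivity) h4
  exact h6.trans (mul_le_mul_of_nonneg_left h5 hδ.le)

theorem nonreg_small (A : ℕ) {c C : ℝ} (hc : 0 < c) : ∃ B : ℝ, 2 ≤ B ∧ ∃ x0 : ℕ, ∀ x : ℕ, x0 ≤ x →
    ∀ y : ℝ, Real.log x ^ B ≤ y →
      C * Real.log x ^ 4 * (x / y ^ c + 1) ≤ (|C| + 1) * (x / Real.log x ^ (A + 2)) := by
  refine ⟨max 2 ((A + 6) / c), le_max_left _ _, ?_⟩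
  obtain ⟨x1, hx1⟩ := log_ge 1
  obtain ⟨x2, hx2⟩ := pow_small (A + 6) (show (0 : ℝ) < 1 by norm_num) |C| (show (0 : ℝ) < 1 by norm_num)
  refine ⟨max (max x1 x2) 1, fun x hx y hy => ?_⟩
  have h1 := hx1 x (le_trans (le_trans (le_max_left _ _) (le_max_left _ _)) hx)
  have h2 := hx2 x (le_trans (le_trans (le_max_right _ _) (le_max_left _ _)) hx)
  have hx0 : (0 : ℝ) < x := by
    have : 1 ≤ x := le_trans (le_max_right _ _) hx
    exact_mod_cast this
  set L := Real.log x with hL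
  have hL0 : 0 < L := by linarith
  set B := max 2 (((A : ℝ) + 6) / c) with hB
  have h3 : L ^ (A + 6) ≤ y ^ c := by
    have h4 : (L ^ B) ^ c ≤ y ^ c := Real.rpow_le_rpow (by positivity) hy hc.le
    rw [← Real.rpow_mul hL0.le] at h4
    refine le_trans ?_ h4
    rw [← Real.rpow_natCast]
    apply Real.rpow_le_rpow_of_exponent_le h1
    have h5 : ((A : ℝ) + 6) / c ≤ B := le_max_right _ _
    rw [div_le_iff₀ hc] at h5
    push_cast
    exact h5
  have hyc : 0 < y ^ c := lt_of_lt_of_le (by positivity) h3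
  have h5 : L ^ 4 * (x / y ^ c) ≤ x / L ^ (A + 2) := by
    have h6 : x / y ^ c ≤ x / L ^ (A + 6) := div_le_div_of_nonneg_left hx0.le (by positivity) h3
    calc L ^ 4 * (x / y ^ c) ≤ L ^ 4 * (x / L ^ (A + 6)) := mul_le_mul_of_nonneg_left h6 (by positivity)
      _ = _ := by
        rw [show A + 6 = (A + 2) + 4 by ring, pow_add L (A + 2) 4]
        field_simp
  have h6 : |C| * L ^ 4 ≤ x / L ^ (A + 2) := by
    rw [le_div_iff₀ (by positivity)]
    rw [Real.rpow_neg_one, ← mul_assoc, mul_inv_le_iff₀ hx0, one_mul] at h2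
    calc |C| * L ^ 4 * L ^ (A + 2) = |C| * L ^ (A + 6) := by
          rw [show A + 6 = 4 + (A + 2) by ring, pow_add L 4 (A + 2)]; ring
      _ ≤ x := h2
  have hxy : 0 ≤ x / y ^ c + 1 := by positivity
  calc C * L ^ 4 * (x / y ^ c + 1) ≤ |C| * L ^ 4 * (x / y ^ c + 1) := by
        apply mul_le_mul_of_nonneg_right _ hxy
        exact mul_le_mul_of_nonneg_right (le_abs_self C) (by positivity)
    _ = |C| * (L ^ 4 * (x / y ^ c)) + |C| * L ^ 4 := by ring
    _ ≤ |C| * (x / L ^ (A + 2)) + x / L ^ (A + 2) :=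
        add_le_add (mul_le_mul_of_nonneg_left h5 (abs_nonneg C)) h6
    _ = _ := by ring

theorem b_half : 1 / 2 ≤ b := by
  unfold b
  rw [div_le_div_iff₀ (by norm_num) (by positivity)]
  have h1 : Real.sqrt 2 ≤ 3 / 2 := by
    rw [Real.sqrt_le_left (by norm_num)]; norm_num
  have h2 : 1 ≤ Real.sqrt 3 := by
    rw [Real.one_le_sqrt]; norm_num
  linarith

theorem exK {e1 lam : ℝ} (he : 0 < e1) (he1 : e1 ≤ 1) (hl : 1 ≤ lam) :
    ∃ J : ℕ, b ^ J ≤ 2 * e1 / Real.sqrt lam ∧ (2 : ℝ) ^ (J + 1) ≤ 2 ^ 20 * lam ^ 10 / e1 ^ 20 := by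
  have hs : 1 ≤ Real.sqrt lam := by rw [Real.one_le_sqrt]; exact hl
  have hz : 1 ≤ Real.sqrt lam / e1 := by rw [le_div_iff₀ he]; linarith
  obtain ⟨m, h1, h2⟩ := near hz
  refine ⟨20 * m + 19, ?_, ?_⟩
  · have h3 : b ^ (20 * (m + 1)) ≤ (1 / 2) ^ (m + 1) := by
      rw [pow_mul]
      exact pow_le_pow_left₀ (pow_nonneg b_pos.le _) b_pow _
    have h4 : ((1 : ℝ) / 2) ^ (m + 1) ≤ e1 / Real.sqrt lam := by
      rw [one_div, inv_pow, ← one_div, div_le_div_iff₀ (by positivity) (by positivity)]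
      rw [div_lt_iff₀ he] at h2
      linarith
    have h5 : b ^ (20 * (m + 1)) = b ^ (20 * m + 19) * b := by
      rw [← pow_succ]; congr 1
    rw [h5] at h3
    have h6 := b_half
    have h7 : 0 < b ^ (20 * m + 19) := pow_pos b_pos _
    have h8 : b ^ (20 * m + 19) * (1 / 2) ≤ b ^ (20 * m + 19) * b := mul_le_mul_of_nonneg_left h6 h7.le
    have e : 2 * e1 / Real.sqrt lam = 2 * (e1 / Real.sqrt lam) := by ring
    rw [e]
    linarith
  · have h3 : (2 : ℝ) ^ (20 * m + 19 + 1) = (2 ^ m * 2) ^ 20 := by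
      rw [← pow_succ, ← pow_mul]; congr 1; ring
    have h4 : (2 : ℝ) ^ m * 2 ≤ Real.sqrt lam / e1 * 2 := mul_le_mul_of_nonneg_right h1 (by norm_num)
    rw [h3]
    calc ((2 : ℝ) ^ m * 2) ^ 20 ≤ (Real.sqrt lam / e1 * 2) ^ 20 := pow_le_pow_left₀ (by positivity) h4 20
      _ = 2 ^ 20 * (Real.sqrt lam ^ 2) ^ 10 / e1 ^ 20 := by
        rw [mul_pow, div_pow, ← pow_mul]; ring
      _ = _ := by rw [Real.sq_sqrt (by linarith)]

theorem C_le : C ≤ 1 := le_of_tendsto p_tendsto (by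
  filter_upwards [eventually_ge_atTop 0] with lam hlam
  exact mul_p_le hlam)

end Pool.Agent.TH926.PX
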