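import Pool.Agent.W36.SL.VLaw
import Pool.Agent.W38.PRc
import Pool.Agent.W218.MU.Class
import Pool.Agent.H828R3.Exc.Law

/-! Excursions of primes: the residue classes and the counting of the primes in them. -/

set_option autoImplicit false

namespace Pool.Agent.TH926.PX

open Finset Pool.Agent.Helper894.Collatz Pool.Agent.H828R3.Exc Pool.Agent.W36.SL
open scoped Classical

/-- the odd classes with a large prefix -/
theorem card_odd_PP (J : ℕ) {lam : ℝ} (h : 1 < lam) :
    (((range (2 ^ (J + 1))).filter fun n => n % 2 = 1 ∧ PP lam (J + 1) n).card : ℝ) =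
      2 ^ J * (1 - s J (2 * lam / 3)) := by
  have h1 := card_PP (J + 1) lam
  have h2 : (((range (2 ^ (J + 1))).filter fun n => n % 2 = 0 ∧ PP lam (J + 1) n).card : ℝ) =
      2 ^ J * (1 - s J (2 * lam)) := by
    rw [← card_PP J (2 * lam)]
    congr 1
    refine Finset.card_nbij' (fun n => n / 2) (fun m => 2 * m) ?_ ?_ ?_ ?_
    · intro n hn
      simp only [coe_filter, mem_range, Set.mem_ofPred_eq] at hn ⊢
      obtain ⟨h3, h4, h5⟩ := hn
      rw [pow_succ] at h3
      refine ⟨by omega, ?_⟩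
      have e : n = 2 * (n / 2) := by omega
      rw [e, PP_even] at h5
      rcases h5 with h5 | h5
      · exact absurd h5 (not_le.2 h)
      · exact h5
    · intro m hm
      simp only [coe_filter, mem_range, Set.mem_ofPred_eq] at hm ⊢
      obtain ⟨h3, h4⟩ := hm
      rw [pow_succ]
      refine ⟨by omega, by omega, ?_⟩
      rw [PP_even]
      exact Or.inr h4
    · intro n hn
      simp only [coe_filter, mem_range, Set.mem_ofPred_eq] at hn
      show 2 * (n / 2) = n
      omega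
    · intro m hm
      show 2 * m / 2 = m
      omega
  have h3 : (((range (2 ^ (J + 1))).filter fun n => PP lam (J + 1) n).card : ℝ) =
      (((range (2 ^ (J + 1))).filter fun n => n % 2 = 0 ∧ PP lam (J + 1) n).card : ℝ) +
      (((range (2 ^ (J + 1))).filter fun n => n % 2 = 1 ∧ PP lam (J + 1) n).card : ℝ) := by
    have h4 := Finset.card_filter_add_card_filter_not
      (s := (range (2 ^ (J + 1))).filter fun n => PP lam (J + 1) n) (fun n => n % 2 = 0)
    rw [filter_filter, filter_filter] at h4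
    rw [← Nat.cast_add, Nat.cast_inj, ← h4]
    congr 1
    · congr 1
      apply filter_congr
      intro n _
      tauto
    · congr 1
      apply filter_congr
      intro n _
      constructor
      · rintro ⟨a, b⟩; exact ⟨by omega, a⟩
      · rintro ⟨a, b⟩; exact ⟨b, by omega⟩
  rw [s_succ J h, h3, h2] at h1
  have e : (2 : ℝ) ^ (J + 1) = 2 * 2 ^ J := by ring
  rw [e] at h1
  linarith

/-- primes with a large prefix, as for random odd numbers, for words of length `≤ C log log x` -/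
theorem primes_PP (D E : ℕ) : ∃ x0 : ℕ, ∀ x : ℕ, x0 ≤ x → ∀ J : ℕ,
    ((2 : ℝ) ^ (J + 1)) ≤ Real.log x ^ D → ∀ lam : ℝ, 1 < lam →
    |(((Icc 1 x).filter (fun p => p.Prime ∧ PP lam (J + 1) p)).card : ℝ) -
      (1 - s J (2 * lam / 3)) * H343E.pi1 x| ≤ 1 + 2 ^ J * (x / Real.log x ^ E) := by
  obtain ⟨x0, h⟩ := Pool.Agent.W218.MU.sw D E
  refine ⟨x0, fun x hx J hJ lam hlam => ?_⟩
  set A := (range (2 ^ (J + 1))).filter fun n => n % 2 = 1 ∧ PP lam (J + 1) n with hA
  have hq : 1 ≤ 2 ^ (J + 1) := Nat.one_le_two_pow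
  have hqr : (((2 ^ (J + 1) : ℕ) : ℕ) : ℝ) ≤ Real.log x ^ D := by push_cast; exact hJ
  have hφ : (Nat.totient (2 ^ (J + 1)) : ℝ) = 2 ^ J := by
    rw [Nat.totient_prime_pow Nat.prime_two (by omega)]
    simp
  set S := (Icc 1 x).filter (fun p => p.Prime ∧ PP lam (J + 1) p) with hS
  set S' := S.filter (fun p => p % 2 = 1) with hS'
  have h1 : S.card ≤ S'.card + 1 := by
    have h2 : S'.card + (S.filter (fun p => ¬ p % 2 = 1)).card = S.card :=
      Finset.card_filter_add_card_filter_not (s := S) (fun p => p % 2 = 1)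
    have h3 : (S.filter (fun p => ¬ p % 2 = 1)).card ≤ 1 := by
      rw [card_le_one]
      intro a ha b hb
      simp only [hS, mem_filter] at ha hb
      have e1 := (ha.1.2.1).eq_two_or_odd
      have e2 := (hb.1.2.1).eq_two_or_odd
      omega
    omega
  have h1' : S'.card ≤ S.card := card_filter_le _ _
  have hmaps : ∀ p ∈ S', p % 2 ^ (J + 1) ∈ A := by
    intro p hp
    simp only [hS', hS, mem_filter] at hp
    rw [hA, mem_filter, mem_range]
    refine ⟨Nat.mod_lt _ (by positivity), ?_, ?_⟩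
    · rw [Nat.mod_mod_of_dvd _ (dvd_pow_self 2 (by omega))]; exact hp.2
    · rw [PP_mod]; exact hp.1.2.2
  have h2 := Finset.card_eq_sum_card_fiberwise (f := fun p => p % 2 ^ (J + 1)) (s := S') (t := A)
    (fun p hp => hmaps p hp)
  have h3 : ∀ a ∈ A, ((S'.filter (fun p => p % 2 ^ (J + 1) = a)).card : ℝ) =
      H343E.piAP x (2 ^ (J + 1)) a := by
    intro a ha
    rw [hA, mem_filter, mem_range] at ha
    unfold H343E.piAP
    congr 2
    ext p
    simp only [hS', hS, mem_filter]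
    constructor
    · rintro ⟨⟨⟨a1, a2, a3⟩, a4⟩, a5⟩
      refine ⟨a1, a2, ?_⟩
      unfold Nat.ModEq
      rw [a5, Nat.mod_eq_of_lt ha.1]
    · rintro ⟨a1, a2, a3⟩
      unfold Nat.ModEq at a3
      rw [Nat.mod_eq_of_lt ha.1] at a3
      refine ⟨⟨⟨a1, a2, ?_⟩, ?_⟩, a3⟩
      · rw [← PP_mod, a3]; exact ha.2.2
      · rw [← Nat.mod_mod_of_dvd p (dvd_pow_self 2 (show J + 1 ≠ 0 by omega)), a3]; exact ha.2.1
  have h4 : (S'.card : ℝ) = ∑ a ∈ A, H343E.piAP x (2 ^ (J + 1)) a := by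
    rw [h2]
    push_cast
    exact sum_congr rfl h3
  have hAc : (A.card : ℝ) = 2 ^ J * (1 - s J (2 * lam / 3)) := card_odd_PP J hlam
  have hA2 : (A.card : ℝ) ≤ 2 ^ J := by
    rw [hAc]
    have := s_nonneg J (2 * lam / 3)
    have h2J : (0 : ℝ) < 2 ^ J := by positivity
    nlinarith
  have h5 : |(S'.card : ℝ) - (1 - s J (2 * lam / 3)) * H343E.pi1 x| ≤ 2 ^ J * (x / Real.log x ^ E) := by
    have e : (1 - s J (2 * lam / 3)) * H343E.pi1 x =
        ∑ a ∈ A, H343E.pi1 x / (Nat.totient (2 ^ (J + 1)) : ℝ) := by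
      rw [sum_const, nsmul_eq_mul, hφ, hAc]
      field_simp
    rw [h4, e, ← sum_sub_distrib]
    refine (abs_sum_le_sum_abs _ _).trans ?_
    have h6 : ∀ a ∈ A, |H343E.piAP x (2 ^ (J + 1)) a - H343E.pi1 x / (Nat.totient (2 ^ (J + 1)) : ℝ)| ≤
        x / Real.log x ^ E := by
      intro a ha
      rw [hA, mem_filter, mem_range] at ha
      apply h x hx _ hq hqr a ha.1
      apply Nat.Coprime.pow_right
      rw [Nat.coprime_comm, Nat.Prime.coprime_iff_not_dvd Nat.prime_two]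
      omega
    refine (sum_le_sum h6).trans ?_
    rw [sum_const, nsmul_eq_mul]
    apply mul_le_mul_of_nonneg_right hA2
    have : 0 ≤ |H343E.piAP x (2 ^ (J + 1)) 1 - H343E.pi1 x / (Nat.totient (2 ^ (J + 1)) : ℝ)| := abs_nonneg _
    refine this.trans (h x hx _ hq hqr 1 (Nat.one_lt_two_pow (by omega)) (Nat.coprime_one_left _))
  have h7 : |(S.card : ℝ) - (S'.card : ℝ)| ≤ 1 := by
    have a1 : (S.card : ℝ) ≤ S'.card + 1 := by exact_mod_cast h1
    have a2 : (S'.card : ℝ) ≤ S.card := by exact_mod_cast h1'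
    rw [abs_le]; constructor <;> linarith
  calc |(S.card : ℝ) - (1 - s J (2 * lam / 3)) * H343E.pi1 x|
      = |((S.card : ℝ) - S'.card) + ((S'.card : ℝ) - (1 - s J (2 * lam / 3)) * H343E.pi1 x)| := by
        congr 1; ring
    _ ≤ |(S.card : ℝ) - S'.card| + |(S'.card : ℝ) - (1 - s J (2 * lam / 3)) * H343E.pi1 x| := abs_add_le _ _
    _ ≤ _ := add_le_add h7 h5

theorem MM_mod {k J : ℕ} (h : k ≤ J) (n : ℕ) : MM k (n % 2 ^ J) = MM k n := by
  have h1 := MM_shift h (n % 2 ^ J) (n / 2 ^ J)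
  rw [Nat.mod_add_div] at h1
  exact h1.symm

theorem sum_b (K J : ℕ) : ∑ k ∈ Ioc K J, b ^ k ≤ 30 * b ^ (K + 1) := by
  have hb0 := b_pos
  have hb1 := b_le
  have h1 : ∀ m : ℕ, ∑ k ∈ Ioc K (K + m), b ^ k ≤ 30 * (b ^ (K + 1) - b ^ (K + m + 1)) := by
    intro m
    induction m with
    | zero => simp
    | succ m ih =>
      have e : Ioc K (K + (m + 1)) = insert (K + (m + 1)) (Ioc K (K + m)) := by
        ext j; simp only [mem_insert, mem_Ioc]; omega
      rw [e, sum_insert (by simp)]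
      have h3 : 0 < b ^ (K + (m + 1)) := by positivity
      have e2 : b ^ (K + (m + 1) + 1) = b ^ (K + (m + 1)) * b := pow_succ _ _
      have e3 : K + m + 1 = K + (m + 1) := by ring
      rw [e3] at ih
      rw [e2]
      nlinarith
  rcases Nat.lt_or_ge J K with h | h
  · rw [Ioc_eq_empty (by omega), sum_empty]; positivity
  · obtain ⟨m, rfl⟩ := Nat.exists_eq_add_of_le h
    refine (h1 m).trans ?_
    have : 0 < b ^ (K + m + 1) := by positivity
    linarith

/-- few primes have a large product after the first `K` steps -/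
theorem primes_late {K J : ℕ} {X : ℝ} (hX : 2 ≤ X) (hJ1 : 1 ≤ J) (hJ : (2 : ℝ) ^ J ≤ X ^ (1 / 2 : ℝ))
    {mu : ℝ} (hmu : 0 < mu) :
    (((Icc 1 ⌊X⌋₊).filter (fun p => p.Prime ∧ ∃ k, K < k ∧ k ≤ J ∧ mu ≤ MM k p)).card : ℝ) ≤
      9600 * (X / Real.log X) * (b ^ (K + 1) / Real.sqrt mu) := by
  have hL : 0 < Real.log X := Real.log_pos (by linarith)
  have h2J : (0 : ℝ) < 2 ^ J := by positivity
  have hs : 0 < Real.sqrt mu := Real.sqrt_pos.2 hmu
  have h1 := Pool.Agent.W38.PR.prime_classes hX hJ1 hJ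
    (fun z : ℤ => ∃ k, K < k ∧ k ≤ J ∧ mu ≤ MM k (z % 2 ^ J).toNat) (by
      intro x m
      rw [Int.add_mul_emod_self_right])
  have h2 : ((Icc 1 ⌊X⌋₊).filter (fun p => p.Prime ∧ ∃ k, K < k ∧ k ≤ J ∧ mu ≤ MM k p)) =
      ((Icc 1 ⌊X⌋₊).filter (fun p => p.Prime ∧
        (fun z : ℤ => ∃ k, K < k ∧ k ≤ J ∧ mu ≤ MM k (z % 2 ^ J).toNat) (p : ℕ))) := by
    apply filter_congr
    intro p _
    have e : (((p : ℕ) : ℤ) % 2 ^ J).toNat = p % 2 ^ J := by
      have : (((p : ℕ) : ℤ) % 2 ^ J) = ((p % 2 ^ J : ℕ) : ℤ) := by push_cast; rfl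
      rw [this, Int.toNat_natCast]
    simp only [e]
    constructor
    · rintro ⟨a, k, h3, h4, h5⟩
      exact ⟨a, k, h3, h4, by rw [MM_mod h4]; exact h5⟩
    · rintro ⟨a, k, h3, h4, h5⟩
      exact ⟨a, k, h3, h4, by rw [MM_mod h4] at h5; exact h5⟩
  have h3 : (((range (2 ^ J)).filter (fun a => (fun z : ℤ => ∃ k, K < k ∧ k ≤ J ∧
      mu ≤ MM k (z % 2 ^ J).toNat) ((a : ℕ) : ℤ))).card : ℝ) ≤ 2 ^ J * (60 * (b ^ (K + 1) / Real.sqrt mu)) := by
    have h4 : ((range (2 ^ J)).filter (fun a => (fun z : ℤ => ∃ k, K < k ∧ k ≤ J ∧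
        mu ≤ MM k (z % 2 ^ J).toNat) ((a : ℕ) : ℤ))) ⊆
        (Ioc K J).biUnion (fun k => (range (2 ^ J)).filter (fun n => mu ≤ MM k n)) := by
      intro a ha
      rw [mem_filter, mem_range] at ha
      obtain ⟨h5, k, h6, h7, h8⟩ := ha
      rw [mem_biUnion]
      refine ⟨k, mem_Ioc.2 ⟨h6, h7⟩, mem_filter.2 ⟨mem_range.2 h5, ?_⟩⟩
      have e : (((a : ℕ) : ℤ) % 2 ^ J).toNat = a % 2 ^ J := by
        have : (((a : ℕ) : ℤ) % 2 ^ J) = ((a % 2 ^ J : ℕ) : ℤ) := by push_cast; rfl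
        rw [this, Int.toNat_natCast]
      rw [e, MM_mod h7] at h8
      exact h8
    calc (((range (2 ^ J)).filter (fun a => (fun z : ℤ => ∃ k, K < k ∧ k ≤ J ∧
      mu ≤ MM k (z % 2 ^ J).toNat) ((a : ℕ) : ℤ))).card : ℝ)
        ≤ (((Ioc K J).biUnion (fun k => (range (2 ^ J)).filter (fun n => mu ≤ MM k n))).card : ℝ) := by
          exact_mod_cast card_le_card h4
      _ ≤ ∑ k ∈ Ioc K J, (((range (2 ^ J)).filter (fun n => mu ≤ MM k n)).card : ℝ) := by
          exact_mod_cast card_biUnion_le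
      _ ≤ ∑ k ∈ Ioc K J, 2 * 2 ^ J * (b ^ k / Real.sqrt mu) := by
          apply sum_le_sum
          intro k hk
          rw [mem_Ioc] at hk
          refine (card_MM_N k (2 ^ J) hmu).trans ?_
          have h9 : (2 : ℝ) ^ k ≤ 2 ^ J := pow_le_pow_right₀ (by norm_num) hk.2
          have h10 : 0 < b ^ k := pow_pos b_pos k
          apply mul_le_mul_of_nonneg_right _ (by positivity)
          push_cast
          linarith
      _ = 2 * 2 ^ J / Real.sqrt mu * ∑ k ∈ Ioc K J, b ^ k := by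
          rw [mul_sum]
          apply sum_congr rfl
          intro k _
          ring
      _ ≤ 2 * 2 ^ J / Real.sqrt mu * (30 * b ^ (K + 1)) :=
          mul_le_mul_of_nonneg_left (sum_b K J) (by positivity)
      _ = _ := by ring
  rw [h2]
  calc _ ≤ _ := h1
    _ ≤ 160 * (X / Real.log X) / 2 ^ J * (2 ^ J * (60 * (b ^ (K + 1) / Real.sqrt mu))) := by
        apply mul_le_mul_of_nonneg_left h3 (by positivity)
    _ = _ := by field_simp; ring

/-- primes with a large prefix: upper bound, long words -/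
theorem primes_PP_le {J : ℕ} {X : ℝ} (hX : 2 ≤ X) (hJ1 : 1 ≤ J) (hJ : (2 : ℝ) ^ J ≤ X ^ (1 / 2 : ℝ))
    {mu : ℝ} (hmu : 0 < mu) :
    (((Icc 1 ⌊X⌋₊).filter (fun p => p.Prime ∧ PP mu J p)).card : ℝ) ≤
      160 * (X / Real.log X) * (1 / mu) := by
  have hL : 0 < Real.log X := Real.log_pos (by linarith)
  have h2J : (0 : ℝ) < 2 ^ J := by positivity
  have h1 := Pool.Agent.W38.PR.prime_classes hX hJ1 hJ
    (fun z : ℤ => PP mu J (z % 2 ^ J).toNat) (by
      intro x m
      rw [Int.add_mul_emod_self_right])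
  have e : ∀ p : ℕ, (((p : ℕ) : ℤ) % 2 ^ J).toNat = p % 2 ^ J := by
    intro p
    have : (((p : ℕ) : ℤ) % 2 ^ J) = ((p % 2 ^ J : ℕ) : ℤ) := by push_cast; rfl
    rw [this, Int.toNat_natCast]
  simp only [e, PP_mod] at h1
  have h2 := card_PP J mu
  have h3 := s_ge J mu hmu
  rw [h2] at h1
  refine h1.trans ?_
  have e2 : 160 * (X / Real.log X) / 2 ^ J * (2 ^ J * (1 - s J mu)) = 160 * (X / Real.log X) * (1 - s J mu) := by
    field_simp
  rw [e2]
  apply mul_le_mul_of_nonneg_left _ (by positivity)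
  linarith

end Pool.Agent.TH926.PX
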