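import Pool.Agent.TH926.PX.Cls

/-! Excursions of primes: finite upper and lower bounds. -/

set_option autoImplicit false

namespace Pool.Agent.TH926.PX

open Finset Pool.Agent.Helper894.Collatz Pool.Agent.H828R3.Exc Pool.Agent.W36.SL Pool.Agent.H319R2.Lln
open scoped Classical

/-- an excursion of a regular `n` is visible in the first half of the digits -/
theorem exc_imp {X y V lam : ℝ} {J n : ℕ} (hy : 0 < y) (hlam : 1 ≤ lam) (hn0 : 0 < n)
    (hnX : (n : ℝ) ≤ X) (hJ : X < ((2 : ℝ) ^ (J + 1)) ^ 2) (hPr : Pr (1 / 20) y V n)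
    (hE : Exc lam y n) : ∃ k ≤ J, lam / (1 + 1 / (3 * y)) ^ J ≤ MM k n := by
  obtain ⟨k, h1, h2⟩ := hE
  have hn : (0 : ℝ) < n := by exact_mod_cast hn0
  have hr : (1 : ℝ) ≤ 1 + 1 / (3 * y) := by
    have : 0 < 1 / (3 * y) := by positivity
    linarith
  by_cases hk : k ≤ J
  · refine ⟨k, hk, ?_⟩
    have h3 := iter_le hy n k (fun j hj => (h2 j hj.le).le)
    have h4 : (1 + 1 / (3 * y)) ^ k ≤ (1 + 1 / (3 * y)) ^ J := pow_le_pow_right₀ hr hk
    rw [div_le_iff₀ (by positivity)]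
    have hM := MM_pos k n
    have h5 : lam * n < MM k n * n * (1 + 1 / (3 * y)) ^ J := by
      refine lt_of_lt_of_le h1 (h3.trans ?_)
      apply mul_le_mul_of_nonneg_left h4 (by positivity)
    have h6 : lam * n < MM k n * (1 + 1 / (3 * y)) ^ J * n := by linarith
    exact (lt_of_mul_lt_mul_right h6 hn.le).le
  · exfalso
    push Not at hk
    obtain ⟨m, hm1, hm2⟩ := hPr
    have hkm : k ≤ m := by
      by_contra h
      push Not at h
      exact absurd hm1 (not_le.2 (h2 m h.le))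
    have h3 := (abs_le.1 (hm2 k hkm).1).2
    have h4 : Real.log n ≤ Real.log (T^[k] n : ℕ) := by
      apply Real.log_le_log hn
      have : (n : ℝ) ≤ lam * n := le_mul_of_one_le_left hn.le hlam
      linarith
    have h5 : Real.log n ≤ Real.log X := Real.log_le_log hn hnX
    have h6 : Real.log X ≤ 2 * ((J : ℝ) + 1) * Real.log 2 := by
      have h7 : Real.log X ≤ Real.log (((2 : ℝ) ^ (J + 1)) ^ 2) :=
        Real.log_le_log (lt_of_lt_of_le hn hnX) hJ.le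
      rw [Real.log_pow, Real.log_pow] at h7
      push_cast at h7
      linarith
    have h7 := mu_lower
    have hl2 : 0 < Real.log 2 := Real.log_pos (by norm_num)
    have h8 : ((J : ℝ) + 1) ≤ k := by exact_mod_cast hk
    have h9 : (0 : ℝ) < (J : ℝ) + 1 := by positivity
    have h10 : 7 / 34 * Real.log 2 * ((J : ℝ) + 1) ≤ mu * k :=
      mul_le_mul h7 h8 h9.le (by linarith [mul_pos (show (0:ℝ) < 7/34 by norm_num) hl2])
    nlinarith [mul_pos h9 hl2]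

/-- upper bound -/
theorem upper {c C : ℝ} (hlaw : ∀ x y V : ℝ, 2 ≤ x → 1 ≤ y → x ≤ V →
    ({n : ℕ | 1 ≤ n ∧ (n : ℝ) ≤ x ∧ ¬ Pr (1 / 20) y V n}.ncard : ℝ) ≤
      C * (Real.log x) ^ 4 * (x / y ^ c + x ^ 2 / V))
    {X y lam : ℝ} {J : ℕ} (K : ℕ) (hX : 2 ≤ X) (hJ2 : X < ((2 : ℝ) ^ (J + 1)) ^ 2) (hy : 1 ≤ y)
    (hlam : 1 ≤ lam) :
    (((Icc 1 ⌊X⌋₊).filter (fun p => p.Prime ∧ Exc lam y p)).card : ℝ) ≤
      C * (Real.log X) ^ 4 * (X / y ^ c + 1) +
      (((Icc 1 ⌊X⌋₊).filter (fun p => p.Prime ∧ PP (lam / (1 + 1 / (3 * y)) ^ J) K p)).card : ℝ) +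
      (((Icc 1 ⌊X⌋₊).filter (fun p => p.Prime ∧ ∃ k, K < k ∧ k ≤ J ∧
        lam / (1 + 1 / (3 * y)) ^ J ≤ MM k p)).card : ℝ) := by
  set mu' := lam / (1 + 1 / (3 * y)) ^ J with hmu'
  have hX0 : 0 < X := by linarith
  have h1 := hlaw X y (X ^ 2) hX hy (by nlinarith)
  have e : X ^ 2 / X ^ 2 = 1 := div_self (by positivity)
  rw [e] at h1
  have e2 : {n : ℕ | 1 ≤ n ∧ (n : ℝ) ≤ X ∧ ¬ Pr (1 / 20) y (X ^ 2) n} =
      (((Icc 1 ⌊X⌋₊).filter (fun n => ¬ Pr (1 / 20) y (X ^ 2) n) : Finset ℕ) : Set ℕ) := by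
    ext n
    rw [coe_filter]
    simp only [Set.mem_ofPred_eq, mem_Icc, Nat.le_floor_iff hX0.le]
    tauto
  rw [e2, Set.ncard_coe_finset] at h1
  have hsub : (Icc 1 ⌊X⌋₊).filter (fun p => p.Prime ∧ Exc lam y p) ⊆
      ((Icc 1 ⌊X⌋₊).filter (fun n => ¬ Pr (1 / 20) y (X ^ 2) n)) ∪
      ((Icc 1 ⌊X⌋₊).filter (fun p => p.Prime ∧ PP mu' K p)) ∪
      ((Icc 1 ⌊X⌋₊).filter (fun p => p.Prime ∧ ∃ k, K < k ∧ k ≤ J ∧ mu' ≤ MM k p)) := by
    intro p hp
    rw [mem_filter, mem_Icc] at hp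
    obtain ⟨⟨hp1, hp2⟩, hp3, hp4⟩ := hp
    rw [mem_union, mem_union]
    by_cases hreg : Pr (1 / 20) y (X ^ 2) p
    · have hpX : (p : ℝ) ≤ X := (Nat.le_floor_iff hX0.le).1 hp2
      obtain ⟨k, hk, h2⟩ := exc_imp (by linarith) hlam (by omega) hpX hJ2 hreg hp4
      rcases Nat.lt_or_ge K k with h3 | h3
      · right
        rw [mem_filter, mem_Icc]
        exact ⟨⟨hp1, hp2⟩, hp3, k, h3, hk, h2⟩
      · left; right
        rw [mem_filter, mem_Icc]
        exact ⟨⟨hp1, hp2⟩, hp3, k, h3, (ge_iff _ _ _).2 h2⟩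
    · left; left
      rw [mem_filter, mem_Icc]
      exact ⟨⟨hp1, hp2⟩, hreg⟩
  have h3 := (card_le_card hsub).trans (card_union_le _ _)
  have h4 := card_union_le ((Icc 1 ⌊X⌋₊).filter (fun n => ¬ Pr (1 / 20) y (X ^ 2) n))
      ((Icc 1 ⌊X⌋₊).filter (fun p => p.Prime ∧ PP mu' K p))
  have h5 : (((Icc 1 ⌊X⌋₊).filter (fun p => p.Prime ∧ Exc lam y p)).card : ℝ) ≤
      (((Icc 1 ⌊X⌋₊).filter (fun n => ¬ Pr (1 / 20) y (X ^ 2) n)).card : ℝ) +
      (((Icc 1 ⌊X⌋₊).filter (fun p => p.Prime ∧ PP mu' K p)).card : ℝ) +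
      (((Icc 1 ⌊X⌋₊).filter (fun p => p.Prime ∧ ∃ k, K < k ∧ k ≤ J ∧ mu' ≤ MM k p)).card : ℝ) := by
    exact_mod_cast h3.trans (Nat.add_le_add_right h4 _)
  linarith

theorem er_pos (k n : ℕ) (h : 0 < od k n) : 0 < er k n := by
  induction k with
  | zero => simp [od] at h
  | succ k ih =>
    rw [er_succ]
    rw [od_succ] at h
    split_ifs with h1
    · rw [h1, add_zero] at h; exact ih h
    · positivity

theorem exc_of_PP {lam y : ℝ} {K n : ℕ} (hlam : 1 < lam) (hn : (2 : ℝ) ^ K * y < n) (hy : 0 ≤ y)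
    (h : PP lam K n) : Exc lam y n := by
  obtain ⟨j, hj, h1⟩ := h
  have h2j : (1 : ℝ) ≤ 2 ^ j := one_le_pow₀ (by norm_num)
  have hn0 : (0 : ℝ) < n := lt_of_le_of_lt (by positivity) hn
  refine ⟨j, ?_, fun i hi => ?_⟩
  · have h2 : 0 < od j n := by
      rcases Nat.eq_zero_or_pos (od j n) with h3 | h3
      · rw [h3, pow_zero] at h1
        nlinarith
      · exact h3
    have h3 := er_pos j n h2
    have h4 := Pool.Agent.Helper894.Collatz.iter_eq j n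
    have h5 : (2 : ℝ) ^ j * (T^[j] n : ℕ) = 3 ^ od j n * n + er j n := by exact_mod_cast h4
    have h6 : (0 : ℝ) < er j n := by exact_mod_cast h3
    have h7 : lam * 2 ^ j * n ≤ 3 ^ od j n * n := mul_le_mul_of_nonneg_right h1 hn0.le
    have h8 : (2 : ℝ) ^ j * (lam * n) < 2 ^ j * (T^[j] n : ℕ) := by linarith
    exact lt_of_mul_lt_mul_left h8 (by positivity)
  · have h3 := iter_ge i n
    have h4 : (1 : ℝ) / 2 ^ i ≤ MM i n := by
      unfold MM
      apply div_le_div_of_nonneg_right (one_le_pow₀ (by norm_num)) (by positivity)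
    have h5 : (1 : ℝ) / 2 ^ i * n ≤ MM i n * n := mul_le_mul_of_nonneg_right h4 hn0.le
    have h6 : (2 : ℝ) ^ i ≤ 2 ^ K := pow_le_pow_right₀ (by norm_num) (hi.trans hj)
    have h7 : y < 1 / 2 ^ i * n := by
      rw [one_div_mul_eq_div, lt_div_iff₀ (by positivity)]
      calc y * 2 ^ i ≤ y * 2 ^ K := mul_le_mul_of_nonneg_left h6 hy
        _ < n := by linarith
    linarith

/-- lower bound -/
theorem lower {X y lam : ℝ} (K : ℕ) (hlam : 1 < lam) (hy : 0 ≤ y) :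
    (((Icc 1 ⌊X⌋₊).filter (fun p => p.Prime ∧ PP lam K p)).card : ℝ) ≤
      (((Icc 1 ⌊X⌋₊).filter (fun p => p.Prime ∧ Exc lam y p)).card : ℝ) + 2 ^ K * y := by
  have hsub : (Icc 1 ⌊X⌋₊).filter (fun p => p.Prime ∧ PP lam K p) ⊆
      ((Icc 1 ⌊X⌋₊).filter (fun p => p.Prime ∧ Exc lam y p)) ∪ Icc 1 ⌊(2 : ℝ) ^ K * y⌋₊ := by
    intro p hp
    rw [mem_filter, mem_Icc] at hp
    obtain ⟨⟨hp1, hp2⟩, hp3, hp4⟩ := hp
    rw [mem_union]
    rcases lt_or_ge ((2 : ℝ) ^ K * y) (p : ℝ) with h | h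
    · left
      rw [mem_filter, mem_Icc]
      exact ⟨⟨hp1, hp2⟩, hp3, exc_of_PP hlam h hy hp4⟩
    · right
      rw [mem_Icc]
      exact ⟨hp1, Nat.le_floor h⟩
  have h1 := (card_le_card hsub).trans (card_union_le _ _)
  rw [Nat.card_Icc, Nat.add_sub_cancel] at h1
  have h2 : ((⌊(2 : ℝ) ^ K * y⌋₊ : ℕ) : ℝ) ≤ 2 ^ K * y := Nat.floor_le (by positivity)
  have h3 : (((Icc 1 ⌊X⌋₊).filter (fun p => p.Prime ∧ PP lam K p)).card : ℝ) ≤
      (((Icc 1 ⌊X⌋₊).filter (fun p => p.Prime ∧ Exc lam y p)).card : ℝ) + (⌊(2 : ℝ) ^ K * y⌋₊ : ℕ) := by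
    exact_mod_cast h1
  linarith

/-- the products of the words of bounded length are discrete -/
theorem gap (K : ℕ) (lam : ℝ) : ∃ δ : ℝ, 0 < δ ∧ ∀ mu' : ℝ, lam - δ < mu' → ∀ n : ℕ, PP mu' K n → PP lam K n := by
  have h : ∀ F : Finset ℝ, ∃ δ : ℝ, 0 < δ ∧ ∀ f ∈ F, f < lam → f ≤ lam - δ := by
    intro F
    induction F using Finset.induction_on with
    | empty => exact ⟨1, one_pos, fun f hf => absurd hf (notMem_empty f)⟩
    | insert a F _ ih =>
      obtain ⟨δ, hδ, h1⟩ := ih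
      by_cases ha : a < lam
      · refine ⟨min δ (lam - a), lt_min hδ (by linarith), fun f hf hfl => ?_⟩
        rcases mem_insert.1 hf with h2 | h2
        · rw [h2]; have := min_le_right δ (lam - a); linarith
        · have := h1 f h2 hfl; have := min_le_left δ (lam - a); linarith
      · refine ⟨δ, hδ, fun f hf hfl => ?_⟩
        rcases mem_insert.1 hf with h2 | h2
        · rw [h2] at hfl; exact absurd hfl ha
        · exact h1 f h2 hfl
  obtain ⟨δ, hδ, h1⟩ := h ((range (K + 1) ×ˢ range (K + 1)).image (fun z => (3 : ℝ) ^ z.1 / 2 ^ z.2))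
  refine ⟨δ, hδ, fun mu' hmu n hP => ?_⟩
  obtain ⟨j, hj, h2⟩ := hP
  refine ⟨j, hj, ?_⟩
  rw [ge_iff] at h2 ⊢
  by_contra hcon
  push Not at hcon
  have hod : od j n ≤ j := by
    unfold od
    calc ∑ i ∈ range j, (T^[i] n) % 2 ≤ ∑ i ∈ range j, 1 :=
          sum_le_sum fun i _ => Nat.le_of_lt_succ (Nat.mod_lt _ (by norm_num))
      _ = j := by simp
  have h3 := h1 (MM j n) (by
    rw [mem_image]
    refine ⟨(od j n, j), ?_, rfl⟩
    rw [mem_product, mem_range, mem_range]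
    exact ⟨by show od j n < K + 1; omega, by show j < K + 1; omega⟩) hcon
  linarith

end Pool.Agent.TH926.PX
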