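import Pool.Agent.TH926.PX.Main

/-! Excursions of primes: the law for a fixed multiple, and a uniform upper bound. -/

set_option autoImplicit false

namespace Pool.Agent.TH926.PX

open Finset Filter Topology Pool.Agent.Helper894.Collatz Pool.Agent.H828R3.Exc Pool.Agent.W36.SL
  Pool.Agent.H319R2.Lln
open scoped Classical

theorem b_small {e : ℝ} (he : 0 < e) : ∃ J : ℕ, b ^ J ≤ e := by
  obtain ⟨J, h⟩ := exists_pow_lt_of_lt_one he b_lt_one
  exact ⟨J, h.le⟩

theorem fixed {c C0 : ℝ} (hc : 0 < c) (hlaw : Law c C0) : ∃ B : ℝ, 2 ≤ B ∧ ∀ θ : ℝ, θ < 1 →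
    ∀ lam : ℝ, 1 < lam → ∀ ε : ℝ, 0 < ε → ∃ x0 : ℕ, ∀ x : ℕ, x0 ≤ x → ∀ y : ℝ,
      Real.log x ^ B ≤ y → y ≤ (x : ℝ) ^ θ → |N x lam y - (1 - q (2 * lam / 3)) * P x| ≤ ε * P x := by
  obtain ⟨B, hB, xb, hb⟩ := nonreg_small 0 (C := C0) hc
  refine ⟨B, hB, fun θ hθ lam hlam ε hε => ?_⟩
  obtain ⟨c1, hc1, hch⟩ := Pool.Agent.W38.PR.cheb
  obtain ⟨J', hJ'⟩ := b_small (e := min (ε / 8) (ε * c1 / 153600)) (lt_min (by positivity) (by positivity))
  have hJa : b ^ J' ≤ ε / 8 := hJ'.trans (min_le_left _ _)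
  have hJb : 19200 * b ^ J' / c1 ≤ ε / 8 := by
    have := hJ'.trans (min_le_right _ _)
    rw [div_le_iff₀ hc1]
    linarith
  obtain ⟨δ, hδ, hgap⟩ := gap (J' + 1) lam
  obtain ⟨xs, hs⟩ := primes_PP 1 3
  obtain ⟨xu, hu⟩ := unit_small 0 (δ := ε / (8 * (|C0| + 3))) (by positivity)
  obtain ⟨xl, hl⟩ := log_ge (max (max 1 (2 ^ (J' + 1))) (2 * lam / δ))
  obtain ⟨xo, ho⟩ := pow_small 2 (show (0 : ℝ) < 1 by norm_num) 1 (show (0 : ℝ) < 1 by norm_num)
  obtain ⟨xp, hp⟩ := pow_small 3 (show (0 : ℝ) < 1 - θ by linarith) 1 (show (0 : ℝ) < 1 by norm_num)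
  refine ⟨max (max (max (max xb xp) xs) (max xu xl)) (max xo 4), fun x hx y hy1 hy2 => ?_⟩
  have hxb : xb ≤ x := by omega
  have hxp : xp ≤ x := by omega
  have hxs : xs ≤ x := by omega
  have hxu : xu ≤ x := by omega
  have hxl : xl ≤ x := by omega
  have hxo : xo ≤ x := by omega
  have hx44 : 4 ≤ x := by omega
  have hx0' := hb x hxb y hy1
  have hx1 := hp x hxp
  have hx2 := hs x hxs
  have hx3 := hu x hxu 1 one_pos (by rw [pow_zero])
  have hx4 := hl x hxl
  have hx5 := ho x hxo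
  have hx6 : (4 : ℝ) ≤ x := by exact_mod_cast hx44
  have hx0 : (0 : ℝ) < x := by linarith
  set L := Real.log x with hL
  have hL1 : 1 ≤ L := le_trans (le_trans (le_max_left _ _) (le_max_left _ _)) hx4
  have hLJ : 2 ^ (J' + 1) ≤ L := le_trans (le_trans (le_max_right _ _) (le_max_left _ _)) hx4
  have hLδ : 2 * lam / δ ≤ L := le_trans (le_max_right _ _) hx4
  have hL0 : 0 < L := by linarith
  have hyL : L ^ 2 ≤ y := by
    refine le_trans ?_ hy1
    rw [← Real.rpow_natCast]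
    exact Real.rpow_le_rpow_of_exponent_le hL1 (by exact_mod_cast hB)
  have hy0 : 0 ≤ y := le_trans (by positivity) hyL
  have hPL : x / L ≤ P x / c1 := by
    rw [le_div_iff₀ hc1, mul_comm]
    have := hch x (by linarith)
    rw [Nat.floor_natCast] at this
    exact this
  have hP0 : 0 < P x := by
    have : 0 < x / L := by positivity
    have h7 : 0 < P x / c1 := lt_of_lt_of_le this hPL
    exact (div_pos_iff_of_pos_right hc1).1 h7
  have hS : x / L ^ 2 ≤ ε / (8 * (|C0| + 3)) * P x := by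
    have := hx3
    rw [div_one, zero_add] at this
    exact this
  have hone : 1 ≤ x / L ^ 2 := by
    rw [Real.rpow_neg_one, one_mul, mul_inv_le_iff₀ hx0, one_mul] at hx5
    rw [le_div_iff₀ (by positivity)]
    linarith
  have hsmall : (|C0| + 3) * (x / L ^ 2) ≤ ε / 8 * P x := by
    have h17 : 0 < |C0| + 3 := by positivity
    calc (|C0| + 3) * (x / L ^ 2) ≤ (|C0| + 3) * (ε / (8 * (|C0| + 3)) * P x) :=
          mul_le_mul_of_nonneg_left hS h17.le
      _ = _ := by field_simp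
  have hJ1 : (2 : ℝ) ^ (J' + 1) ≤ L ^ 1 := by rw [pow_one]; exact hLJ
  have hmt := abs_le.1 (hx2 J' hJ1 lam hlam)
  rw [pi1_eq] at hmt
  have ht2b : (2 : ℝ) ^ J' * (x / L ^ 3) ≤ x / L ^ 2 := by
    have h9 : (2 : ℝ) ^ J' ≤ L := by
      refine le_trans ?_ hLJ
      exact pow_le_pow_right₀ (by norm_num) (by omega)
    calc (2 : ℝ) ^ J' * (x / L ^ 3) ≤ L * (x / L ^ 3) :=
          mul_le_mul_of_nonneg_right h9 (by positivity)
      _ = _ := by field_simp
  have hsq := s_sub_q J' (2 * lam / 3) (by linarith)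
  have hqs := q_le_s J' (2 * lam / 3)
  have hbJ : 0 < b ^ J' := pow_pos b_pos _
  have hP8 : ε / 8 * P x = ε * P x / 8 := by ring
  rw [abs_le]
  constructor
  · -- lower bound
    have hlow := lower (X := (x : ℝ)) (y := y) (lam := lam) (J' + 1) hlam hy0
    rw [Nat.floor_natCast] at hlow
    have hyp : (2 : ℝ) ^ (J' + 1) * y ≤ x / L ^ 2 := by
      rw [le_div_iff₀ (by positivity)]
      rw [one_mul, neg_sub, Real.rpow_sub hx0, Real.rpow_one, ← mul_div_assoc, div_le_iff₀ hx0, one_mul] at hx1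
      calc (2 : ℝ) ^ (J' + 1) * y * L ^ 2 ≤ L * (x : ℝ) ^ θ * L ^ 2 := by
            apply mul_le_mul_of_nonneg_right _ (by positivity)
            exact mul_le_mul hLJ hy2 hy0 (by positivity)
        _ = L ^ 3 * (x : ℝ) ^ θ := by ring
        _ ≤ x := hx1
    have h20 : b ^ J' / Real.sqrt (2 * lam / 3) ≤ 2 * (ε / 8) := by
      have h21 : 1 / 2 ≤ Real.sqrt (2 * lam / 3) := by
        apply Real.le_sqrt_of_sq_le
        norm_num
        linarith
      rw [div_le_iff₀ (by linarith)]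
      nlinarith
    have h22 : (1 - q (2 * lam / 3)) * P x - 2 * (ε / 8) * P x ≤ (1 - s J' (2 * lam / 3)) * P x := by
      have h23 : (1 - q (2 * lam / 3)) - 2 * (ε / 8) ≤ 1 - s J' (2 * lam / 3) := by linarith
      calc (1 - q (2 * lam / 3)) * P x - 2 * (ε / 8) * P x = ((1 - q (2 * lam / 3)) - 2 * (ε / 8)) * P x := by ring
        _ ≤ _ := mul_le_mul_of_nonneg_right h23 hP0.le
    have h24 : 0 ≤ |C0| * (x / L ^ 2) := by positivity
    have hNe : N x lam y = (((Icc 1 x).filter (fun p => p.Prime ∧ Exc lam y p)).card : ℝ) := rfl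
    have hPε : 0 < ε * P x := by positivity
    rw [hNe]
    nlinarith
  · -- upper bound
    obtain ⟨J, mu', hm1, hm2, hJJ1, hJJ2, hup⟩ := up_gen hlaw hx6 hL hL1 hyL hlam.le
    have hmain := hup (J' + 1)
    have hLi : 1 / L ≤ 1 := by rw [div_le_one hL0]; exact hL1
    have hLi0 : 0 < 1 / L := by positivity
    have hmu2 : lam / 2 ≤ mu' := by
      refine le_trans ?_ hm1
      apply div_le_div_of_nonneg_left (by linarith) (by linarith) (by linarith)
    have hmu0 : 0 < mu' := by linarith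
    have hgp : lam - δ < mu' := by
      refine lt_of_lt_of_le ?_ hm1
      rw [lt_div_iff₀ (by linarith)]
      have h30 : lam * (1 / L) ≤ δ / 2 := by
        rw [mul_one_div, div_le_iff₀ hL0]
        rw [div_le_iff₀ hδ] at hLδ
        linarith
      nlinarith
    have hA1 : (((Icc 1 x).filter (fun p => p.Prime ∧ PP mu' (J' + 1) p)).card : ℝ) ≤
        (((Icc 1 x).filter (fun p => p.Prime ∧ PP lam (J' + 1) p)).card : ℝ) := by
      have : (Icc 1 x).filter (fun p => p.Prime ∧ PP mu' (J' + 1) p) ⊆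
          (Icc 1 x).filter (fun p => p.Prime ∧ PP lam (J' + 1) p) := by
        intro p hp
        rw [mem_filter] at hp ⊢
        exact ⟨hp.1, hp.2.1, hgap mu' hgp p hp.2.2⟩
      exact_mod_cast card_le_card this
    have ht3 : (((Icc 1 x).filter (fun p => p.Prime ∧ ∃ k, J' + 1 < k ∧ k ≤ J ∧ mu' ≤ MM k p)).card : ℝ) ≤
        ε / 8 * P x := by
      have h13 := primes_late (K := J' + 1) (by linarith : (2 : ℝ) ≤ x) hJJ1 hJJ2 hmu0
      rw [Nat.floor_natCast, ← hL] at h13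
      refine h13.trans ?_
      have h14 : 1 / 2 ≤ Real.sqrt mu' := by
        apply Real.le_sqrt_of_sq_le
        norm_num
        linarith
      have h15 : b ^ (J' + 1 + 1) ≤ b ^ J' := pow_le_pow_of_le_one b_pos.le b_lt_one.le (by omega)
      have h16 : b ^ (J' + 1 + 1) / Real.sqrt mu' ≤ 2 * b ^ J' := by
        rw [div_le_iff₀ (by linarith)]
        nlinarith
      calc 9600 * (x / L) * (b ^ (J' + 1 + 1) / Real.sqrt mu') ≤ 9600 * (P x / c1) * (2 * b ^ J') := by
            apply mul_le_mul _ h16 (div_nonneg (pow_nonneg b_pos.le _) (by linarith)) (by positivity)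
            exact mul_le_mul_of_nonneg_left hPL (by norm_num)
        _ = (19200 * b ^ J' / c1) * P x := by ring
        _ ≤ _ := mul_le_mul_of_nonneg_right hJb hP0.le
    have h22 : (1 - s J' (2 * lam / 3)) * P x ≤ (1 - q (2 * lam / 3)) * P x := by
      apply mul_le_mul_of_nonneg_right _ hP0.le
      linarith
    rw [zero_add] at hx0'
    have hPε : 0 < ε * P x := by positivity
    nlinarith

/-- uniform upper bound -/
theorem coarse {c C0 : ℝ} (hc : 0 < c) (hlaw : Law c C0) : ∃ C1 : ℝ, 0 < C1 ∧ ∀ θ : ℝ, 0 < θ →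
    ∃ v : ℝ, 0 < v ∧ ∃ x0 : ℕ, ∀ x : ℕ, x0 ≤ x → ∀ y : ℝ, (x : ℝ) ^ θ ≤ y → ∀ lam : ℝ, 1 ≤ lam →
      lam ≤ (x : ℝ) ^ v → N x lam y ≤ C1 * (P x / lam) := by
  obtain ⟨c1, hc1, hch⟩ := Pool.Agent.W38.PR.cheb
  refine ⟨320 / c1 + 1, by positivity, fun θ hθ => ?_⟩
  set t : ℝ := min (θ * c) 1 with ht
  have ht0 : 0 < t := lt_min (by positivity) one_pos
  obtain ⟨x1, h1⟩ := pow_small 5 (show 0 < t / 2 by positivity) (2 * |C0| / c1) (show (0 : ℝ) < 1 by norm_num)
  obtain ⟨x2, h2⟩ := log_ge 1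
  obtain ⟨x3, h3⟩ := pow_small 2 hθ 1 (show (0 : ℝ) < 1 by norm_num)
  refine ⟨t / 2, by positivity, max (max x1 x2) (max x3 4), fun x hx y hy lam hlam1 hlam2 => ?_⟩
  have hx1 := h1 x (by omega)
  have hL1 := h2 x (by omega)
  have hx3 := h3 x (by omega)
  have hx4 : (4 : ℝ) ≤ x := by exact_mod_cast (by omega : 4 ≤ x)
  have hx0 : (0 : ℝ) < x := by linarith
  set L := Real.log x with hL
  have hL0 : 0 < L := by linarith
  have hlam0 : 0 < lam := by linarith
  have hPL : x / L ≤ P x / c1 := by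
    rw [le_div_iff₀ hc1, mul_comm]
    have := hch x (by linarith)
    rw [Nat.floor_natCast] at this
    exact this
  have hP0 : 0 < P x := by
    have : 0 < x / L := by positivity
    have h7 : 0 < P x / c1 := lt_of_lt_of_le this hPL
    exact (div_pos_iff_of_pos_right hc1).1 h7
  have hyL : L ^ 2 ≤ y := by
    refine le_trans ?_ hy
    rw [one_mul, Real.rpow_neg hx0.le, ← div_eq_mul_inv, div_le_one (by positivity)] at hx3
    exact hx3
  have hy0 : 0 < y := lt_of_lt_of_le (by positivity) hy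
  obtain ⟨J, mu', hm1, hm2, hJJ1, hJJ2, hup⟩ := up_gen hlaw hx4 hL hL1 hyL hlam1
  have hmain := hup J
  have hLi : 1 / L ≤ 1 := by rw [div_le_one hL0]; exact hL1
  have hLi0 : 0 < 1 / L := by positivity
  have hmu2 : lam / 2 ≤ mu' := by
    refine le_trans ?_ hm1
    apply div_le_div_of_nonneg_left hlam0.le (by linarith) (by linarith)
  have hmu0 : 0 < mu' := by linarith
  have hA2 : (((Icc 1 x).filter (fun p => p.Prime ∧ ∃ k, J < k ∧ k ≤ J ∧ mu' ≤ MM k p)).card : ℝ) = 0 := by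
    have : (Icc 1 x).filter (fun p => p.Prime ∧ ∃ k, J < k ∧ k ≤ J ∧ mu' ≤ MM k p) = ∅ := by
      apply filter_eq_empty_iff.2
      rintro p _ ⟨_, k, h7, h8, _⟩
      omega
    rw [this]; simp
  have hA1 : (((Icc 1 x).filter (fun p => p.Prime ∧ PP mu' J p)).card : ℝ) ≤ 320 / c1 * (P x / lam) := by
    have h7 := primes_PP_le (by linarith : (2 : ℝ) ≤ x) hJJ1 hJJ2 hmu0
    rw [Nat.floor_natCast, ← hL] at h7
    refine h7.trans ?_
    have h8 : 1 / mu' ≤ 2 / lam := by
      rw [div_le_div_iff₀ hmu0 hlam0]; linarith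
    calc 160 * (x / L) * (1 / mu') ≤ 160 * (P x / c1) * (2 / lam) := by
          apply mul_le_mul _ h8 (by positivity) (by positivity)
          exact mul_le_mul_of_nonneg_left hPL (by norm_num)
      _ = _ := by ring
  have hsmall : C0 * L ^ 4 * (x / y ^ c + 1) ≤ P x / lam := by
    have h7 : x / y ^ c ≤ (x : ℝ) ^ (1 - t) := by
      have h8 : (x : ℝ) ^ t ≤ y ^ c := by
        calc (x : ℝ) ^ t ≤ (x : ℝ) ^ (θ * c) :=
              Real.rpow_le_rpow_of_exponent_le (by linarith) (min_le_left _ _)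
          _ = ((x : ℝ) ^ θ) ^ c := by rw [Real.rpow_mul hx0.le]
          _ ≤ y ^ c := Real.rpow_le_rpow (by positivity) hy hc.le
      rw [Real.rpow_sub hx0, Real.rpow_one]
      exact div_le_div_of_nonneg_left hx0.le (by positivity) h8
    have h9 : (1 : ℝ) ≤ (x : ℝ) ^ (1 - t) := by
      apply Real.one_le_rpow (by linarith)
      have := min_le_right (θ * c) 1
      linarith
    have h10 : c1 * (x / L) / (x : ℝ) ^ (t / 2) ≤ P x / lam := by
      apply div_le_div₀ hP0.le _ hlam0 hlam2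
      rw [le_div_iff₀ hc1] at hPL
      linarith
    refine le_trans ?_ h10
    have h11 : C0 * L ^ 4 * (x / y ^ c + 1) ≤ |C0| * L ^ 4 * (2 * (x : ℝ) ^ (1 - t)) := by
      apply mul_le_mul _ (by linarith) (by positivity) (by positivity)
      exact mul_le_mul_of_nonneg_right (le_abs_self C0) (by positivity)
    refine h11.trans ?_
    have e1 : (x : ℝ) ^ (1 - t) = x * (x : ℝ) ^ (-(t / 2)) * (x : ℝ) ^ (-(t / 2)) := by
      rw [mul_assoc, ← Real.rpow_add hx0]
      nth_rewrite 2 [← Real.rpow_one (x : ℝ)]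
      rw [← Real.rpow_add hx0]
      congr 1; ring
    have e2 : c1 * (x / L) / (x : ℝ) ^ (t / 2) = c1 * (x / L) * (x : ℝ) ^ (-(t / 2)) := by
      rw [Real.rpow_neg hx0.le]; rfl
    rw [e1, e2]
    have h12 : |C0| * L ^ 4 * (2 * (x * (x : ℝ) ^ (-(t / 2)) * (x : ℝ) ^ (-(t / 2)))) =
        (2 * |C0| / c1 * (L ^ 5 * (x : ℝ) ^ (-(t / 2)))) * (c1 * (x / L) * (x : ℝ) ^ (-(t / 2))) := by
      field_simp
    rw [h12]
    exact mul_le_of_le_one_left (by positivity) hx1
  have hQ : 0 < P x / lam := by positivity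
  rw [hA2] at hmain
  linarith

end Pool.Agent.TH926.PX
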