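import Pool.Agent.TH926.PX.Asym

/-! Excursions of primes: the sharp law for large excursions. -/

set_option autoImplicit false

namespace Pool.Agent.TH926.PX

open Finset Filter Topology Pool.Agent.Helper894.Collatz Pool.Agent.H828R3.Exc Pool.Agent.W36.SL
  Pool.Agent.H319R2.Lln
open scoped Classical

/-- the law of large numbers with a power saving, for `ε = 1 / 20` -/
def Law (c C : ℝ) : Prop := ∀ x y V : ℝ, 2 ≤ x → 1 ≤ y → x ≤ V →
    ({n : ℕ | 1 ≤ n ∧ (n : ℝ) ≤ x ∧ ¬ Pr (1 / 20) y V n}.ncard : ℝ) ≤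
      C * (Real.log x) ^ 4 * (x / y ^ c + x ^ 2 / V)

/-- collection of the estimates: upper bound with general word length `J' + 1` -/
theorem up_gen {c C0 : ℝ} (hlaw : Law c C0) {x : ℕ} {y lam L : ℝ} (hx4 : (4 : ℝ) ≤ x)
    (hL : L = Real.log x) (hL1 : 1 ≤ L) (hy : L ^ 2 ≤ y) (hlam : 1 ≤ lam) :
    ∃ J : ℕ, ∃ mu' : ℝ, lam / (1 + 1 / L) ≤ mu' ∧ mu' ≤ lam ∧
      1 ≤ J ∧ (2 : ℝ) ^ J ≤ (x : ℝ) ^ (1 / 2 : ℝ) ∧
      (∀ K, N x lam y ≤ C0 * L ^ 4 * (x / y ^ c + 1) +
        (((Icc 1 x).filter (fun p => p.Prime ∧ PP mu' K p)).card : ℝ) +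
        (((Icc 1 x).filter (fun p => p.Prime ∧ ∃ k, K < k ∧ k ≤ J ∧ mu' ≤ MM k p)).card : ℝ)) := by
  obtain ⟨J, h1, h2, h3, h4⟩ := exJ hx4
  have hL0 : 0 < L := by linarith
  have hy1 : 1 ≤ y := le_trans (one_le_pow₀ hL1) hy
  have hr : (1 + 1 / (3 * y)) ^ J ≤ 1 + 1 / L := rJ hL1 (by rw [hL]; exact h4) hy
  have hr1 : 1 ≤ (1 + 1 / (3 * y)) ^ J := by
    apply one_le_pow₀
    have : 0 < 1 / (3 * y) := by positivity
    linarith
  refine ⟨J, lam / (1 + 1 / (3 * y)) ^ J, ?_, ?_, h1, h2, fun K => ?_⟩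
  · exact div_le_div_of_nonneg_left (by linarith) (by linarith) hr
  · exact div_le_self (by linarith) hr1
  · have h5 := upper (lam := lam) hlaw K (by linarith : (2 : ℝ) ≤ x) h3 hy1 hlam
    rw [Nat.floor_natCast, ← hL] at h5
    exact h5

theorem up_unif {c C0 : ℝ} (hc : 0 < c) (hlaw : Law c C0) (A : ℕ) : ∃ B : ℝ, 2 ≤ B ∧ ∀ ε : ℝ, 0 < ε → ε ≤ 1 →
    ∃ L0 : ℝ, ∃ x0 : ℕ, ∀ x : ℕ, x0 ≤ x → ∀ y : ℝ, Real.log x ^ B ≤ y → ∀ lam : ℝ, L0 ≤ lam →
      lam ≤ Real.log x ^ A → N x lam y ≤ (3 / 2 * C + ε) * (P x / lam) := by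
  obtain ⟨B, hB, xb, hb⟩ := nonreg_small A (C := C0) hc
  refine ⟨B, hB, fun ε hε hε1 => ?_⟩
  obtain ⟨c1, hc1, hch⟩ := Pool.Agent.W38.PR.cheb
  -- parameters
  set e1 : ℝ := min 1 (ε * c1 / 307200) with he1
  have he10 : 0 < e1 := lt_min one_pos (by positivity)
  have he11 : e1 ≤ 1 := min_le_left _ _
  have he12 : 38400 * e1 / c1 ≤ ε / 8 := by
    have := min_le_right 1 (ε * c1 / 307200)
    rw [div_le_iff₀ hc1]
    linarith
  obtain ⟨Lp, hLp1, hLp⟩ := p_ev (show 0 < ε / 8 by linarith)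
  set D : ℕ := 10 * A + 1 with hD
  obtain ⟨xs, hs⟩ := primes_PP D (D + A + 2)
  obtain ⟨xu, hu⟩ := unit_small A (δ := ε / (8 * (|C0| + 3))) (by positivity)
  obtain ⟨xl, hl⟩ := log_ge (max (max 1 (24 / ε)) (2 ^ 20 / e1 ^ 20))
  obtain ⟨xo, ho⟩ := pow_small (A + 2) (show (0 : ℝ) < 1 by norm_num) 1 (show (0 : ℝ) < 1 by norm_num)
  refine ⟨max 4 (3 * Lp), max (max (max xb xs) (max xu xl)) (max xo 4), fun x hx y hy lam hlam1 hlam2 => ?_⟩
  have hx1 := hb x (le_trans (le_trans (le_max_left _ _) (le_trans (le_max_left _ _) (le_max_left _ _))) hx) y hy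
  have hx2 := hs x (le_trans (le_trans (le_max_right _ _) (le_trans (le_max_left _ _) (le_max_left _ _))) hx)
  have hx3 := hu x (le_trans (le_trans (le_max_left _ _) (le_trans (le_max_right _ _) (le_max_left _ _))) hx)
  have hx4 := hl x (le_trans (le_trans (le_max_right _ _) (le_trans (le_max_right _ _) (le_max_left _ _))) hx)
  have hx5 := ho x (le_trans (le_trans (le_max_left _ _) (le_max_right _ _)) hx)
  have hx6 : (4 : ℝ) ≤ x := by exact_mod_cast le_trans (le_trans (le_max_right _ _) (le_max_right _ _)) hx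
  have hx0 : (0 : ℝ) < x := by linarith
  set L := Real.log x with hL
  have hL1 : 1 ≤ L := le_trans (le_trans (le_max_left _ _) (le_max_left _ _)) hx4
  have hL24 : 24 / ε ≤ L := le_trans (le_trans (le_max_right _ _) (le_max_left _ _)) hx4
  have hL20 : 2 ^ 20 / e1 ^ 20 ≤ L := le_trans (le_max_right _ _) hx4
  have hL0 : 0 < L := by linarith
  have hlam4 : 4 ≤ lam := le_trans (le_max_left _ _) hlam1
  have hlamp : 3 * Lp ≤ lam := le_trans (le_max_right _ _) hlam1
  have hlam0 : 0 < lam := by linarith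
  have hyL : L ^ 2 ≤ y := by
    refine le_trans ?_ hy
    rw [← Real.rpow_natCast]
    exact Real.rpow_le_rpow_of_exponent_le hL1 (by exact_mod_cast hB)
  have hPL : x / L ≤ P x / c1 := by
    rw [le_div_iff₀ hc1, mul_comm]
    have := hch x (by linarith)
    rw [Nat.floor_natCast] at this
    exact this
  have hP0 : 0 < P x := by
    have : 0 < x / L := by positivity
    have h7 : 0 < P x / c1 := lt_of_lt_of_le this hPL
    exact (div_pos_iff_of_pos_right hc1).1 h7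
  set Q := P x / lam with hQ
  have hQ0 : 0 < Q := by positivity
  have hS : x / L ^ (A + 2) ≤ ε / (8 * (|C0| + 3)) * Q := hx3 lam hlam0 hlam2
  have hone : 1 ≤ x / L ^ (A + 2) := by
    rw [Real.rpow_neg_one, one_mul, mul_inv_le_iff₀ hx0, one_mul] at hx5
    rw [le_div_iff₀ (by positivity)]
    linarith
  -- word length
  obtain ⟨J', hJ1, hJ2⟩ := exK he10 he11 (by linarith : (1 : ℝ) ≤ lam)
  have hJD : (2 : ℝ) ^ (J' + 1) ≤ L ^ D := by
    refine hJ2.trans ?_
    have h8 : lam ^ 10 ≤ L ^ (10 * A) := by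
      rw [mul_comm, pow_mul]
      exact pow_le_pow_left₀ hlam0.le hlam2 10
    calc 2 ^ 20 * lam ^ 10 / e1 ^ 20 = 2 ^ 20 / e1 ^ 20 * lam ^ 10 := by ring
      _ ≤ L * L ^ (10 * A) := by
        apply mul_le_mul hL20 h8 (by positivity) hL0.le
      _ = L ^ D := by rw [hD, pow_succ]; ring
  obtain ⟨J, mu', hm1, hm2, hJJ1, hJJ2, hup⟩ := up_gen hlaw hx6 hL hL1 hyL (by linarith : (1 : ℝ) ≤ lam)
  have hLi : 1 / L ≤ 1 := by rw [div_le_one hL0]; exact hL1
  have hLi0 : 0 < 1 / L := by positivity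
  have hmu2 : lam / 2 ≤ mu' := by
    refine le_trans ?_ hm1
    apply div_le_div_of_nonneg_left hlam0.le (by linarith) (by linarith)
  have hmu0 : 0 < mu' := by linarith
  have hmain := hup (J' + 1)
  -- the main term
  have ht2 := (abs_le.1 (hx2 J' hJD mu' (by linarith))).2
  rw [pi1_eq] at ht2
  have ht2b : (2 : ℝ) ^ J' * (x / L ^ (D + A + 2)) ≤ x / L ^ (A + 2) := by
    have h9 : (2 : ℝ) ^ J' ≤ L ^ D := by
      refine le_trans ?_ hJD
      exact pow_le_pow_right₀ (by norm_num) (by omega)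
    calc (2 : ℝ) ^ J' * (x / L ^ (D + A + 2)) ≤ L ^ D * (x / L ^ (D + A + 2)) :=
          mul_le_mul_of_nonneg_right h9 (by positivity)
      _ = _ := by rw [show D + A + 2 = D + (A + 2) by ring, pow_add L D (A + 2)]; field_simp
  have ht4 : (1 - s J' (2 * mu' / 3)) * P x ≤ (3 / 2 * C + 3 * (ε / 8)) * Q := by
    have h10 : 1 - s J' (2 * mu' / 3) ≤ p (2 * mu' / 3) := by
      have := q_le_s J' (2 * mu' / 3)
      unfold p
      linarith
    have h11 := (hLp (2 * mu' / 3) (by linarith)).2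
    have hC := C_le
    have hC0 := C_pos
    have h12 : (C + ε / 8) / (2 * mu' / 3) ≤ (3 / 2 * C + 3 * (ε / 8)) / lam := by
      have hinv : 1 / mu' ≤ (1 + 1 / L) / lam := by
        rw [div_le_div_iff₀ hmu0 hlam0]
        rw [div_le_iff₀ (by linarith)] at hm1
        linarith
      have hLe : 1 / L ≤ ε / 24 := by
        rw [div_le_iff₀ hL0]
        rw [div_le_iff₀ hε] at hL24
        linarith
      calc (C + ε / 8) / (2 * mu' / 3) = (3 / 2 * (C + ε / 8)) * (1 / mu') := by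
            field_simp
        _ ≤ (3 / 2 * (C + ε / 8)) * ((1 + 1 / L) / lam) :=
            mul_le_mul_of_nonneg_left hinv (by positivity)
        _ = (3 / 2 * (C + ε / 8) * (1 + 1 / L)) / lam := by ring
        _ ≤ _ := by
            apply div_le_div_of_nonneg_right _ hlam0.le
            have h13 : (C + ε / 8) * (1 / L) ≤ 9 / 8 * (ε / 24) :=
              mul_le_mul (by linarith) hLe hLi0.le (by norm_num)
            have e13 : 3 / 2 * (C + ε / 8) * (1 + 1 / L) = 3 / 2 * (C + ε / 8) + 3 / 2 * ((C + ε / 8) * (1 / L)) := by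
              ring
            rw [e13]
            linarith
    calc (1 - s J' (2 * mu' / 3)) * P x ≤ (3 / 2 * C + 3 * (ε / 8)) / lam * P x := by
          apply mul_le_mul_of_nonneg_right _ hP0.le
          linarith
      _ = _ := by rw [hQ]; ring
  have ht3 : (((Icc 1 x).filter (fun p => p.Prime ∧ ∃ k, J' + 1 < k ∧ k ≤ J ∧ mu' ≤ MM k p)).card : ℝ) ≤
      ε / 8 * Q := by
    have h13 := primes_late (K := J' + 1) (by linarith : (2 : ℝ) ≤ x) hJJ1 hJJ2 hmu0
    rw [Nat.floor_natCast, ← hL] at h13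
    refine h13.trans ?_
    have hsl : 0 < Real.sqrt lam := Real.sqrt_pos.2 hlam0
    have h14 : Real.sqrt lam / 2 ≤ Real.sqrt mu' := by
      apply Real.le_sqrt_of_sq_le
      rw [div_pow, Real.sq_sqrt hlam0.le]
      linarith
    have hsm : 0 < Real.sqrt mu' := Real.sqrt_pos.2 hmu0
    have h15 : b ^ (J' + 1 + 1) ≤ 2 * e1 / Real.sqrt lam :=
      le_trans (pow_le_pow_of_le_one b_pos.le b_lt_one.le (by omega)) hJ1
    have h16 : b ^ (J' + 1 + 1) / Real.sqrt mu' ≤ 4 * e1 / lam := by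
      calc b ^ (J' + 1 + 1) / Real.sqrt mu' ≤ (2 * e1 / Real.sqrt lam) / (Real.sqrt lam / 2) :=
            div_le_div₀ (by positivity) h15 (by positivity) h14
        _ = 4 * e1 / (Real.sqrt lam * Real.sqrt lam) := by field_simp; norm_num
        _ = _ := by rw [Real.mul_self_sqrt hlam0.le]
    calc 9600 * (x / L) * (b ^ (J' + 1 + 1) / Real.sqrt mu') ≤ 9600 * (P x / c1) * (4 * e1 / lam) := by
          apply mul_le_mul _ h16 (div_nonneg (pow_nonneg b_pos.le _) hsm.le) (by positivity)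
          exact mul_le_mul_of_nonneg_left hPL (by norm_num)
      _ = (38400 * e1 / c1) * Q := by rw [hQ]; ring
      _ ≤ _ := mul_le_mul_of_nonneg_right he12 hQ0.le
  have hsmall : (|C0| + 3) * (x / L ^ (A + 2)) ≤ ε / 8 * Q := by
    have h17 : 0 < |C0| + 3 := by positivity
    calc (|C0| + 3) * (x / L ^ (A + 2)) ≤ (|C0| + 3) * (ε / (8 * (|C0| + 3)) * Q) :=
          mul_le_mul_of_nonneg_left hS h17.le
      _ = _ := by field_simp
  have hQε : 0 < ε * Q := by positivity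
  nlinarith

theorem low_unif (A : ℕ) : ∀ θ : ℝ, θ < 1 → ∀ ε : ℝ, 0 < ε → ε ≤ 1 →
    ∃ L0 : ℝ, ∃ x0 : ℕ, ∀ x : ℕ, x0 ≤ x → ∀ y : ℝ, 0 ≤ y → y ≤ (x : ℝ) ^ θ → ∀ lam : ℝ, L0 ≤ lam →
      lam ≤ Real.log x ^ A → (3 / 2 * C - ε) * (P x / lam) ≤ N x lam y := by
  intro θ hθ ε hε hε1
  obtain ⟨c1, hc1, hch⟩ := Pool.Agent.W38.PR.cheb
  set e1 : ℝ := ε / 32 with he1
  have he10 : 0 < e1 := by positivity
  have he11 : e1 ≤ 1 := by linarith
  obtain ⟨Lp, hLp1, hLp⟩ := p_ev (show 0 < ε / 8 by linarith)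
  set D : ℕ := 10 * A + 1 with hD
  obtain ⟨xs, hs⟩ := primes_PP D (D + A + 2)
  obtain ⟨xu, hu⟩ := unit_small A (δ := ε / 24) (by positivity)
  obtain ⟨xl, hl⟩ := log_ge (max 1 (2 ^ 20 / e1 ^ 20))
  obtain ⟨xo, ho⟩ := pow_small (A + 2) (show (0 : ℝ) < 1 by norm_num) 1 (show (0 : ℝ) < 1 by norm_num)
  obtain ⟨xp, hp⟩ := pow_small (D + A + 2) (show (0 : ℝ) < 1 - θ by linarith) 1 (show (0 : ℝ) < 1 by norm_num)
  refine ⟨max 4 (3 * Lp), max (max (max xp xs) (max xu xl)) (max xo 4), fun x hx y hy0 hy lam hlam1 hlam2 => ?_⟩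
  have hx1 := hp x (le_trans (le_trans (le_max_left _ _) (le_trans (le_max_left _ _) (le_max_left _ _))) hx)
  have hx2 := hs x (le_trans (le_trans (le_max_right _ _) (le_trans (le_max_left _ _) (le_max_left _ _))) hx)
  have hx3 := hu x (le_trans (le_trans (le_max_left _ _) (le_trans (le_max_right _ _) (le_max_left _ _))) hx)
  have hx4 := hl x (le_trans (le_trans (le_max_right _ _) (le_trans (le_max_right _ _) (le_max_left _ _))) hx)
  have hx5 := ho x (le_trans (le_trans (le_max_left _ _) (le_max_right _ _)) hx)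
  have hx6 : (4 : ℝ) ≤ x := by exact_mod_cast le_trans (le_trans (le_max_right _ _) (le_max_right _ _)) hx
  have hx0 : (0 : ℝ) < x := by linarith
  set L := Real.log x with hL
  have hL1 : 1 ≤ L := le_trans (le_max_left _ _) hx4
  have hL20 : 2 ^ 20 / e1 ^ 20 ≤ L := le_trans (le_max_right _ _) hx4
  have hL0 : 0 < L := by linarith
  have hlam4 : 4 ≤ lam := le_trans (le_max_left _ _) hlam1
  have hlamp : 3 * Lp ≤ lam := le_trans (le_max_right _ _) hlam1
  have hlam0 : 0 < lam := by linarith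
  have hPL : x / L ≤ P x / c1 := by
    rw [le_div_iff₀ hc1, mul_comm]
    have := hch x (by linarith)
    rw [Nat.floor_natCast] at this
    exact this
  have hP0 : 0 < P x := by
    have : 0 < x / L := by positivity
    have h7 : 0 < P x / c1 := lt_of_lt_of_le this hPL
    exact (div_pos_iff_of_pos_right hc1).1 h7
  set Q := P x / lam with hQ
  have hQ0 : 0 < Q := by positivity
  have hS : x / L ^ (A + 2) ≤ ε / 24 * Q := hx3 lam hlam0 hlam2
  have hone : 1 ≤ x / L ^ (A + 2) := by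
    rw [Real.rpow_neg_one, one_mul, mul_inv_le_iff₀ hx0, one_mul] at hx5
    rw [le_div_iff₀ (by positivity)]
    linarith
  obtain ⟨J', hJ1, hJ2⟩ := exK he10 he11 (by linarith : (1 : ℝ) ≤ lam)
  have hJD : (2 : ℝ) ^ (J' + 1) ≤ L ^ D := by
    refine hJ2.trans ?_
    have h8 : lam ^ 10 ≤ L ^ (10 * A) := by
      rw [mul_comm, pow_mul]
      exact pow_le_pow_left₀ hlam0.le hlam2 10
    calc 2 ^ 20 * lam ^ 10 / e1 ^ 20 = 2 ^ 20 / e1 ^ 20 * lam ^ 10 := by ring
      _ ≤ L * L ^ (10 * A) := by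
        apply mul_le_mul hL20 h8 (by positivity) hL0.le
      _ = L ^ D := by rw [hD, pow_succ]; ring
  have ht2 := (abs_le.1 (hx2 J' hJD lam (by linarith))).1
  rw [pi1_eq] at ht2
  have ht2b : (2 : ℝ) ^ J' * (x / L ^ (D + A + 2)) ≤ x / L ^ (A + 2) := by
    have h9 : (2 : ℝ) ^ J' ≤ L ^ D := by
      refine le_trans ?_ hJD
      exact pow_le_pow_right₀ (by norm_num) (by omega)
    calc (2 : ℝ) ^ J' * (x / L ^ (D + A + 2)) ≤ L ^ D * (x / L ^ (D + A + 2)) :=
          mul_le_mul_of_nonneg_right h9 (by positivity)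
      _ = _ := by rw [show D + A + 2 = D + (A + 2) by ring, pow_add L D (A + 2)]; field_simp
  have hyp : (2 : ℝ) ^ (J' + 1) * y ≤ x / L ^ (A + 2) := by
    rw [le_div_iff₀ (by positivity)]
    rw [one_mul, neg_sub, Real.rpow_sub hx0, Real.rpow_one, ← mul_div_assoc, div_le_iff₀ hx0, one_mul] at hx1
    calc (2 : ℝ) ^ (J' + 1) * y * L ^ (A + 2) ≤ L ^ D * (x : ℝ) ^ θ * L ^ (A + 2) := by
          apply mul_le_mul_of_nonneg_right _ (by positivity)
          exact mul_le_mul hJD hy hy0 (by positivity)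
      _ = L ^ (D + A + 2) * (x : ℝ) ^ θ := by
          rw [show D + A + 2 = D + (A + 2) by ring, pow_add L D (A + 2)]; ring
      _ ≤ x := hx1
  have hlow := lower (X := (x : ℝ)) (y := y) (lam := lam) (J' + 1) (by linarith) hy0
  rw [Nat.floor_natCast] at hlow
  have ht4 : (3 / 2 * C - 2 * (ε / 8)) * Q - (ε / 8) * Q ≤ (1 - s J' (2 * lam / 3)) * P x := by
    have h10 := s_sub_q J' (2 * lam / 3) (by positivity)
    have h11 := (hLp (2 * lam / 3) (by linarith)).1
    have hsl : 0 < Real.sqrt lam := Real.sqrt_pos.2 hlam0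
    have h12 : b ^ J' / Real.sqrt (2 * lam / 3) ≤ 4 * e1 / lam := by
      have h14 : Real.sqrt lam / 2 ≤ Real.sqrt (2 * lam / 3) := by
        apply Real.le_sqrt_of_sq_le
        rw [div_pow, Real.sq_sqrt hlam0.le]
        linarith
      have hbJ : 0 < b ^ J' := pow_pos b_pos _
      calc b ^ J' / Real.sqrt (2 * lam / 3) ≤ (2 * e1 / Real.sqrt lam) / (Real.sqrt lam / 2) :=
            div_le_div₀ (by positivity) hJ1 (by positivity) h14
        _ = 4 * e1 / (Real.sqrt lam * Real.sqrt lam) := by field_simp; norm_num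
        _ = _ := by rw [Real.mul_self_sqrt hlam0.le]
    have h13 : (C - ε / 8) / (2 * lam / 3) = (3 / 2 * C - 3 / 2 * (ε / 8)) / lam := by
      field_simp
      try ring
    have h14 : (3 / 2 * C - 3 / 2 * (ε / 8)) / lam - 4 * e1 / lam ≤ 1 - s J' (2 * lam / 3) := by
      unfold p at h11
      linarith
    have h15 : (3 / 2 * C - 2 * (ε / 8)) * Q - (ε / 8) * Q ≤
        ((3 / 2 * C - 3 / 2 * (ε / 8)) / lam - 4 * e1 / lam) * P x := by
      have e : ((3 / 2 * C - 3 / 2 * (ε / 8)) / lam - 4 * e1 / lam) * P x =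
          (3 / 2 * C - 3 / 2 * (ε / 8) - 4 * e1) * Q := by rw [hQ]; ring
      rw [e, he1]
      nlinarith
    exact h15.trans (mul_le_mul_of_nonneg_right h14 hP0.le)
  have hNe : N x lam y = (((Icc 1 x).filter (fun p => p.Prime ∧ Exc lam y p)).card : ℝ) := rfl
  have hQε : 0 < ε * Q := by positivity
  rw [hNe]
  nlinarith

end Pool.Agent.TH926.PX
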